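import Mathlib
import Pool.Agent.Helper43.OD.Height4

set_option autoImplicit false

namespace Pool.Agent.Helper84.RW

open Finset

/-- summation over fibres -/
lemma fiber_hasSum {ι : Type} (f : ι → ℝ) (φ : ι → ℕ) (F : ℕ → Finset ι)
    (hF : ∀ i N, i ∈ F N ↔ φ i = N) (s : ℝ) (hf : HasSum f s) :
    HasSum (fun N => ∑ i ∈ F N, f i) s := by
  have h1 : HasSum (fun x : (Σ N : ℕ, {i : ι // φ i = N}) => f x.2) s := by
    have := (Equiv.sigmaFiberEquiv φ).hasSum_iff (f := f) (a := s)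
    exact this.2 hf
  refine h1.sigma ?_
  intro N
  have h2 := (F N).hasSum f
  have e : {i : ι // φ i = N} ≃ {i : ι // i ∈ F N} := Equiv.subtypeEquivRight (fun i => (hF i N).symm)
  have h3 := (Equiv.subtypeEquivRight (fun i => (hF i N).symm) : {i : ι // φ i = N} ≃ {i : ι // i ∈ F N}).hasSum_iff
    (f := fun i : {i : ι // i ∈ F N} => f i) (a := ∑ i ∈ F N, f i)
  exact h3.2 h2

/-- all coefficients up to X vanish if the exponent K is large -/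
lemma vanish (x : ℕ → ℝ) (K E X : ℕ) (B Δ : ℝ) (hB : 1 ≤ B) (hΔ : 1 ≤ Δ)
    (hx0 : x 0 = 0)
    (hsum : HasSum (fun N : ℕ => x N * ((N : ℝ) ^ K)⁻¹) 0)
    (hbd : ∀ N, |x N| ≤ B * (N : ℝ) ^ E)
    (hden : ∀ N ≤ X, x N ≠ 0 → 1 ≤ Δ * |x N|)
    (hEK : E + 2 ≤ K)
    (hK : ((X : ℝ) + 1) * (Real.log (2 * B * Δ) + (E + 2) * Real.log (X + 1)) < K) :
    ∀ N ≤ X, x N = 0 := by
  classical
  by_contra hcon
  push Not at hcon
  have hex : ∃ N, N ≤ X ∧ x N ≠ 0 := hcon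
  set N := Nat.find hex with hN
  obtain ⟨hN1, hN2⟩ := Nat.find_spec hex
  rw [← hN] at hN1 hN2
  have hmin : ∀ j < N, x j = 0 := by
    intro j hj
    have := Nat.find_min hex hj
    push Not at this
    exact this (by omega)
  have hN0 : 1 ≤ N := by
    rcases Nat.eq_zero_or_pos N with h | h
    · rw [h] at hN2; exact absurd hx0 hN2
    · exact h
  set f : ℕ → ℝ := fun N : ℕ => x N * ((N : ℝ) ^ K)⁻¹ with hf
  have hS : Summable f := hsum.summable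
  have h1 := hS.sum_add_tsum_nat_add (N + 1)
  rw [hsum.tsum_eq, Finset.sum_range_succ] at h1
  have h2 : ∑ j ∈ Finset.range N, f j = 0 := by
    apply Finset.sum_eq_zero
    intro j hj
    simp only [hf]
    rw [hmin j (Finset.mem_range.1 hj), zero_mul]
  rw [h2, zero_add] at h1
  have h3 : |f N| = |∑' j, f (j + (N + 1))| := by
    have : f N = - ∑' j, f (j + (N + 1)) := by linarith
    rw [this, abs_neg]
  obtain ⟨K', rfl⟩ : ∃ K', K = K' + (E + 2) := ⟨K - (E + 2), by omega⟩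
  have hNr : (0 : ℝ) < (N : ℝ) := by exact_mod_cast hN0
  have hN1r : (0 : ℝ) < (N : ℝ) + 1 := by linarith
  set B1 : ℝ := B * (((N : ℝ) + 1) ^ K')⁻¹ with hB1
  have hB10 : 0 ≤ B1 := by positivity
  have h5 : ∀ j : ℕ, |f (j + (N + 1))| ≤ B1 * (1 / ((j + (N - 1) + 2 : ℕ) : ℝ) ^ 2) := by
    intro j
    have e0 : j + (N - 1) + 2 = j + (N + 1) := by omega
    rw [e0]
    simp only [hf]
    rw [abs_mul, abs_of_nonneg (by positivity : (0 : ℝ) ≤ (((j + (N + 1) : ℕ) : ℝ) ^ (K' + (E + 2)))⁻¹)]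
    have hy : (0 : ℝ) < ((j + (N + 1) : ℕ) : ℝ) := by positivity
    have hxy : (N : ℝ) + 1 ≤ ((j + (N + 1) : ℕ) : ℝ) := by
      push_cast; linarith [(Nat.cast_nonneg j : (0:ℝ) ≤ j)]
    have e1 := hbd (j + (N + 1))
    set y : ℝ := ((j + (N + 1) : ℕ) : ℝ)
    calc |x (j + (N + 1))| * (y ^ (K' + (E + 2)))⁻¹ ≤ (B * y ^ E) * (y ^ (K' + (E + 2)))⁻¹ :=
          mul_le_mul_of_nonneg_right e1 (by positivity)
      _ = B * (y ^ K')⁻¹ * (1 / y ^ 2) := by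
          rw [pow_add, pow_add]; field_simp
      _ ≤ B * (((N : ℝ) + 1) ^ K')⁻¹ * (1 / y ^ 2) := by
          apply mul_le_mul_of_nonneg_right _ (by positivity)
          apply mul_le_mul_of_nonneg_left _ (by linarith)
          exact inv_anti₀ (by positivity) (pow_le_pow_left₀ hN1r.le hxy K')
  have hs2 : Summable (fun j : ℕ => 1 / ((j + (N - 1) + 2 : ℕ) : ℝ) ^ 2) := by
    have hs : Summable (fun n : ℕ => 1 / (n : ℝ) ^ 2) := hasSum_zeta_two.summable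
    have hinj : Function.Injective (fun j : ℕ => j + (N - 1) + 2) := by
      intro a b hab; simp at hab; omega
    exact hs.comp_injective hinj
  have hs3 : Summable (fun j : ℕ => B1 * (1 / ((j + (N - 1) + 2 : ℕ) : ℝ) ^ 2)) := hs2.mul_left B1
  have h6 : |∑' j, f (j + (N + 1))| ≤ ∑' j : ℕ, B1 * (1 / ((j + (N - 1) + 2 : ℕ) : ℝ) ^ 2) := by
    have := tsum_of_norm_bounded hs3.hasSum (fun j => by rw [Real.norm_eq_abs]; exact h5 j)
    rwa [Real.norm_eq_abs] at this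
  rw [tsum_mul_left] at h6
  have h7 : |f N| ≤ B1 * 2 := by
    rw [h3]
    exact le_trans h6 (mul_le_mul_of_nonneg_left (Pool.Agent.Helper43.OD.sum_sq_le (N - 1)) hB10)
  have h8 : |f N| = |x N| * ((N : ℝ) ^ (K' + (E + 2)))⁻¹ := by
    simp only [hf]
    rw [abs_mul, abs_of_nonneg (by positivity : (0 : ℝ) ≤ ((N : ℝ) ^ (K' + (E + 2)))⁻¹)]
  have h9 := hden N hN1 hN2
  -- ((N+1)/N)^K <= 2 B Δ (N+1)^(E+2)
  have h10 : (((N : ℝ) + 1) / N) ^ (K' + (E + 2)) ≤ 2 * B * Δ * ((N : ℝ) + 1) ^ (E + 2) := by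
    rw [h8, hB1] at h7
    have e1 : (1 : ℝ) * ((N : ℝ) ^ (K' + (E + 2)))⁻¹ ≤ Δ * (B * (((N : ℝ) + 1) ^ K')⁻¹ * 2) := by
      calc (1 : ℝ) * ((N : ℝ) ^ (K' + (E + 2)))⁻¹ ≤ (Δ * |x N|) * ((N : ℝ) ^ (K' + (E + 2)))⁻¹ :=
            mul_le_mul_of_nonneg_right h9 (by positivity)
        _ = Δ * (|x N| * ((N : ℝ) ^ (K' + (E + 2)))⁻¹) := by ring
        _ ≤ _ := mul_le_mul_of_nonneg_left h7 (by linarith)
    rw [one_mul] at e1
    calc (((N : ℝ) + 1) / N) ^ (K' + (E + 2)) = ((N : ℝ) + 1) ^ (K' + (E + 2)) * ((N : ℝ) ^ (K' + (E + 2)))⁻¹ := by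
          rw [div_pow]; rfl
      _ ≤ ((N : ℝ) + 1) ^ (K' + (E + 2)) * (Δ * (B * (((N : ℝ) + 1) ^ K')⁻¹ * 2)) :=
          mul_le_mul_of_nonneg_left e1 (by positivity)
      _ = _ := by rw [pow_add]; field_simp
  have h11 := Real.log_le_log (by positivity) h10
  rw [Real.log_pow, Real.log_mul (by positivity) (by positivity), Real.log_pow] at h11
  have h12 : 1 / ((N : ℝ) + 1) ≤ Real.log (((N : ℝ) + 1) / N) := by
    have e1 := Real.one_sub_inv_le_log_of_pos (x := ((N : ℝ) + 1) / N) (by positivity)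
    refine le_trans (le_of_eq ?_) e1
    field_simp
    ring
  have hNX : (N : ℝ) + 1 ≤ (X : ℝ) + 1 := by
    have : (N : ℝ) ≤ X := by exact_mod_cast hN1
    linarith
  have h13 : Real.log ((N : ℝ) + 1) ≤ Real.log ((X : ℝ) + 1) := Real.log_le_log hN1r hNX
  have h14 : 0 ≤ Real.log ((N : ℝ) + 1) := Real.log_nonneg (by linarith)
  have h15 : 0 ≤ Real.log (2 * B * Δ) := by
    apply Real.log_nonneg
    nlinarith
  have h16 : ((K' + (E + 2) : ℕ) : ℝ) * (1 / ((N : ℝ) + 1)) ≤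
      Real.log (2 * B * Δ) + (E + 2) * Real.log (X + 1) := by
    calc ((K' + (E + 2) : ℕ) : ℝ) * (1 / ((N : ℝ) + 1)) ≤ ((K' + (E + 2) : ℕ) : ℝ) * Real.log (((N : ℝ) + 1) / N) :=
          mul_le_mul_of_nonneg_left h12 (Nat.cast_nonneg _)
      _ ≤ Real.log (2 * B * Δ) + ((E + 2 : ℕ) : ℝ) * Real.log ((N : ℝ) + 1) := h11
      _ ≤ Real.log (2 * B * Δ) + (E + 2) * Real.log (X + 1) := by
          push_cast
          have : ((E : ℝ) + 2) * Real.log ((N : ℝ) + 1) ≤ (E + 2) * Real.log (X + 1) :=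
            mul_le_mul_of_nonneg_left h13 (by positivity)
          linarith
  have h17 : ((K' + (E + 2) : ℕ) : ℝ) ≤ ((N : ℝ) + 1) * (Real.log (2 * B * Δ) + (E + 2) * Real.log (X + 1)) := by
    have e1 := mul_le_mul_of_nonneg_left h16 hN1r.le
    have e2 : ((N : ℝ) + 1) * (((K' + (E + 2) : ℕ) : ℝ) * (1 / ((N : ℝ) + 1))) = ((K' + (E + 2) : ℕ) : ℝ) := by
      field_simp
    rw [e2] at e1
    exact e1
  have h18 : 0 ≤ Real.log (2 * B * Δ) + (E + 2) * Real.log (X + 1) := by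
    have : 0 ≤ ((E : ℝ) + 2) * Real.log ((X : ℝ) + 1) := mul_nonneg (by positivity) (le_trans h14 h13)
    linarith
  have h19 := mul_le_mul_of_nonneg_right hNX h18
  linarith

/-- clearing a denominator -/
lemma int_of_dvd (n M e : ℕ) (i : ℤ) (hn : n ∣ M) (hn0 : n ≠ 0) (hi : 0 ≤ i + e) :
    ∃ z : ℤ, (n : ℝ) ^ i * (M : ℝ) ^ e = z := by
  obtain ⟨w, rfl⟩ := hn
  obtain ⟨u, hu⟩ := Int.eq_ofNat_of_zero_le hi
  refine ⟨(n : ℤ) ^ u * (w : ℤ) ^ e, ?_⟩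
  have hn' : (n : ℝ) ≠ 0 := by exact_mod_cast hn0
  have h1 : (n : ℝ) ^ i * (n : ℝ) ^ e = (n : ℝ) ^ u := by
    rw [← zpow_natCast (n : ℝ) e, ← zpow_add₀ hn', hu, zpow_natCast]
  push_cast
  rw [mul_pow, ← mul_assoc, h1]

/-- the pairs with `m ^ a * n ^ (q - a) = N` -/
def F (q a N : ℕ) : Finset (ℕ × ℕ) :=
  ((range N) ×ˢ (range N)).filter (fun p => (p.1 + p.2 + 2) ^ a * (p.2 + 1) ^ (q - a) = N)

lemma F_le {q a N : ℕ} (ha : 1 ≤ a) {p : ℕ × ℕ} (h : (p.1 + p.2 + 2) ^ a * (p.2 + 1) ^ (q - a) = N) :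
    p.1 + p.2 + 2 ≤ N := by
  rw [← h]
  calc p.1 + p.2 + 2 = (p.1 + p.2 + 2) ^ 1 := (pow_one _).symm
    _ ≤ (p.1 + p.2 + 2) ^ a := Nat.pow_le_pow_right (by omega) ha
    _ ≤ _ := Nat.le_mul_of_pos_right _ (by positivity)

lemma mem_F {q a N : ℕ} (ha : 1 ≤ a) (p : ℕ × ℕ) :
    p ∈ F q a N ↔ (p.1 + p.2 + 2) ^ a * (p.2 + 1) ^ (q - a) = N := by
  unfold F
  rw [Finset.mem_filter, Finset.mem_product, Finset.mem_range, Finset.mem_range]
  constructor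
  · exact fun h => h.2
  · intro h
    have := F_le ha h
    exact ⟨⟨by omega, by omega⟩, h⟩

lemma card_F (q a N : ℕ) : (F q a N).card ≤ N ^ 2 := by
  unfold F
  calc _ ≤ ((range N) ×ˢ (range N)).card := Finset.card_filter_le _ _
    _ = N ^ 2 := by rw [Finset.card_product, Finset.card_range]; ring

/-- the `n` with `n ^ q = N` -/
def F0 (q N : ℕ) : Finset ℕ := (range N).filter (fun n => (n + 1) ^ q = N)

lemma mem_F0 {q N : ℕ} (hq : 1 ≤ q) (n : ℕ) : n ∈ F0 q N ↔ (n + 1) ^ q = N := by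
  unfold F0
  rw [Finset.mem_filter, Finset.mem_range]
  constructor
  · exact fun h => h.2
  · intro h
    refine ⟨?_, h⟩
    rw [← h]
    calc n < n + 1 := Nat.lt_succ_self n
      _ = (n + 1) ^ 1 := (pow_one _).symm
      _ ≤ (n + 1) ^ q := Nat.pow_le_pow_right (by omega) hq

lemma card_F0 (q N : ℕ) : (F0 q N).card ≤ N := by
  unfold F0
  calc _ ≤ (range N).card := Finset.card_filter_le _ _
    _ = N := Finset.card_range N

/-- the part of the term not in the power `N ^ (-K)` -/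
noncomputable def g (j : ℤ) (t : ℕ) (p : ℕ × ℕ) : ℝ :=
  ((p.1 + p.2 + 2 : ℕ) : ℝ) ^ (-j) * ((p.2 + 1 : ℕ) : ℝ) ^ (j - t)

lemma dt_eq (q K t a r : ℕ) (haq : a ≤ q) (hr : r ≤ q * K + t) (p : ℕ × ℕ) :
    Pool.Agent.Helper43.OD.dt r (q * K + t - r) p =
      g ((r : ℤ) - a * K) t p * ((((p.1 + p.2 + 2) ^ a * (p.2 + 1) ^ (q - a) : ℕ) : ℝ) ^ K)⁻¹ := by
  unfold Pool.Agent.Helper43.OD.dt g
  have hm : ((p.1 + p.2 + 2 : ℕ) : ℝ) ≠ 0 := by positivity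
  have hn : ((p.2 + 1 : ℕ) : ℝ) ≠ 0 := by positivity
  rw [Nat.cast_mul, Nat.cast_pow, Nat.cast_pow]
  set m : ℝ := ((p.1 + p.2 + 2 : ℕ) : ℝ)
  set n : ℝ := ((p.2 + 1 : ℕ) : ℝ)
  rw [← zpow_natCast m r, ← zpow_natCast n (q * K + t - r), ← zpow_natCast m a, ← zpow_natCast n (q - a),
    ← zpow_natCast _ K, mul_zpow, ← zpow_mul, ← zpow_mul, mul_inv, ← zpow_neg, ← zpow_neg, one_div, mul_inv,
    ← zpow_neg, ← zpow_neg]
  rw [show m ^ (-((r : ℤ) - a * K)) * n ^ ((r : ℤ) - a * K - t) * (m ^ (-((a : ℤ) * (K : ℤ))) * n ^ (-(((q - a : ℕ) : ℤ) * (K : ℤ)))) =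
    (m ^ (-((r : ℤ) - a * K)) * m ^ (-((a : ℤ) * (K : ℤ)))) * (n ^ ((r : ℤ) - a * K - t) * n ^ (-(((q - a : ℕ) : ℤ) * (K : ℤ)))) by ring]
  rw [← zpow_add₀ hm, ← zpow_add₀ hn]
  congr 2
  · ring
  · rw [Nat.cast_sub haq, Nat.cast_sub hr]; push_cast; ring

end Pool.Agent.Helper84.RW
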