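import Mathlib
import Pool.Agent.Helper84.RW.Base

set_option autoImplicit false

namespace Pool.Agent.Helper84.RW

open Finset

/-- the coefficient of `N ^ (-K)` -/
noncomputable def xx (q K t : ℕ) (α : ℕ → ℕ) (c0 : ℤ) (c : ℕ → ℤ) (N : ℕ) : ℝ :=
  ∑ r ∈ Finset.Icc 2 (q * K + t - 1), (c r : ℝ) * ∑ p ∈ F q (α r) N, g ((r : ℤ) - α r * K) t p
    - c0 * ∑ n ∈ F0 q N, ((n + 1 : ℕ) : ℝ) ^ (-(t : ℤ))

lemma F_zero (q a : ℕ) : F q a 0 = ∅ := by simp [F]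

lemma F0_zero (q : ℕ) : F0 q 0 = ∅ := by simp [F0]

lemma xx_zero (q K t : ℕ) (α : ℕ → ℕ) (c0 : ℤ) (c : ℕ → ℤ) : xx q K t α c0 c 0 = 0 := by
  unfold xx
  simp [F_zero, F0_zero]

lemma xx_hasSum (q K t : ℕ) (α : ℕ → ℕ) (c0 : ℤ) (c : ℕ → ℤ) (hq : 1 ≤ q) (hk : 3 ≤ q * K + t)
    (hα : ∀ r, 1 ≤ α r ∧ α r ≤ q)
    (hrel : ∑ r ∈ Finset.Icc 2 (q * K + t - 1), (c r : ℝ) * ∑' p : ℕ × ℕ,
        (1 : ℝ) / ((((p.1 + p.2 + 2 : ℕ) : ℝ) ^ r) * (((p.2 + 1 : ℕ) : ℝ) ^ (q * K + t - r))) =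
      c0 * ∑' n : ℕ, (1 : ℝ) / ((n + 1 : ℕ) : ℝ) ^ (q * K + t)) :
    HasSum (fun N : ℕ => xx q K t α c0 c N * ((N : ℝ) ^ K)⁻¹) 0 := by
  have h1 : ∀ r ∈ Finset.Icc 2 (q * K + t - 1), HasSum (fun N : ℕ =>
      ((c r : ℝ) * ∑ p ∈ F q (α r) N, g ((r : ℤ) - α r * K) t p) * ((N : ℝ) ^ K)⁻¹)
      ((c r : ℝ) * ∑' p : ℕ × ℕ,
        (1 : ℝ) / ((((p.1 + p.2 + 2 : ℕ) : ℝ) ^ r) * (((p.2 + 1 : ℕ) : ℝ) ^ (q * K + t - r)))) := by
    intro r hr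
    have hr' := Finset.mem_Icc.1 hr
    have a1 := (Pool.Agent.Helper43.OD.dt_summable r (q * K + t - r) hr'.1 (by omega)).hasSum
    have a2 := fiber_hasSum (Pool.Agent.Helper43.OD.dt r (q * K + t - r))
      (fun p : ℕ × ℕ => (p.1 + p.2 + 2) ^ (α r) * (p.2 + 1) ^ (q - α r)) (F q (α r))
      (fun p N => mem_F (hα r).1 p) _ a1
    have a3 := a2.mul_left (c r : ℝ)
    refine a3.congr_fun ?_
    intro N
    rw [mul_assoc, Finset.sum_mul]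
    congr 1
    apply Finset.sum_congr rfl
    intro p hp
    rw [dt_eq q K t (α r) r (hα r).2 (by omega) p, (mem_F (hα r).1 p).1 hp]
  have h2 : HasSum (fun N : ℕ => (c0 * ∑ n ∈ F0 q N, ((n + 1 : ℕ) : ℝ) ^ (-(t : ℤ))) * ((N : ℝ) ^ K)⁻¹)
      (c0 * ∑' n : ℕ, (1 : ℝ) / ((n + 1 : ℕ) : ℝ) ^ (q * K + t)) := by
    have hz : Summable (fun n : ℕ => (1 : ℝ) / ((n + 1 : ℕ) : ℝ) ^ (q * K + t)) := by
      have h1 : Summable (fun n : ℕ => (1 : ℝ) / (n : ℝ) ^ (q * K + t)) :=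
        Real.summable_one_div_nat_pow.2 (by omega)
      exact h1.comp_injective (add_left_injective 1)
    have a2 := fiber_hasSum _ (fun n : ℕ => (n + 1) ^ q) (F0 q) (fun n N => mem_F0 hq n) _ hz.hasSum
    have a3 := a2.mul_left (c0 : ℝ)
    refine a3.congr_fun ?_
    intro N
    rw [mul_assoc, Finset.sum_mul]
    congr 1
    apply Finset.sum_congr rfl
    intro n hn
    have hn' := (mem_F0 hq n).1 hn
    rw [← hn']
    have hx : ((n + 1 : ℕ) : ℝ) ≠ 0 := by positivity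
    rw [Nat.cast_pow, zpow_neg, zpow_natCast, pow_add, pow_mul, one_div, mul_inv]
    ring
  have h3 := (hasSum_sum h1).sub h2
  rw [hrel, sub_self] at h3
  refine h3.congr_fun ?_
  intro N
  unfold xx
  rw [sub_mul, Finset.sum_mul]

lemma g_bound (j : ℤ) (t S' N : ℕ) (hj1 : -(S' : ℤ) ≤ j) (hj2 : j ≤ S') (p : ℕ × ℕ)
    (hp : p.1 + p.2 + 2 ≤ N) : |g j t p| ≤ (N : ℝ) ^ (2 * S') := by
  unfold g
  have hm1 : (1 : ℝ) ≤ ((p.1 + p.2 + 2 : ℕ) : ℝ) := by push_cast; linarith [(Nat.cast_nonneg p.1 : (0:ℝ) ≤ p.1), (Nat.cast_nonneg p.2 : (0:ℝ) ≤ p.2)]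
  have hn1 : (1 : ℝ) ≤ ((p.2 + 1 : ℕ) : ℝ) := by push_cast; linarith [(Nat.cast_nonneg p.2 : (0:ℝ) ≤ p.2)]
  have hmN : ((p.1 + p.2 + 2 : ℕ) : ℝ) ≤ (N : ℝ) := by exact_mod_cast hp
  have hnN : ((p.2 + 1 : ℕ) : ℝ) ≤ (N : ℝ) := by
    have : p.2 + 1 ≤ N := by omega
    exact_mod_cast this
  set m : ℝ := ((p.1 + p.2 + 2 : ℕ) : ℝ)
  set n : ℝ := ((p.2 + 1 : ℕ) : ℝ)
  rw [abs_of_nonneg (by positivity)]
  have e1 : m ^ (-j) ≤ (N : ℝ) ^ S' := by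
    calc m ^ (-j) ≤ m ^ (S' : ℤ) := zpow_le_zpow_right₀ hm1 (by omega)
      _ = m ^ S' := zpow_natCast _ _
      _ ≤ _ := pow_le_pow_left₀ (by linarith) hmN S'
  have e2 : n ^ (j - t) ≤ (N : ℝ) ^ S' := by
    calc n ^ (j - t) ≤ n ^ (S' : ℤ) := zpow_le_zpow_right₀ hn1 (by omega)
      _ = n ^ S' := zpow_natCast _ _
      _ ≤ _ := pow_le_pow_left₀ (by linarith) hnN S'
  calc m ^ (-j) * n ^ (j - t) ≤ (N : ℝ) ^ S' * (N : ℝ) ^ S' :=
        mul_le_mul e1 e2 (by positivity) (by positivity)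
    _ = _ := by rw [two_mul, pow_add]

lemma xx_bound (q K t S' : ℕ) (α : ℕ → ℕ) (c0 : ℤ) (c : ℕ → ℤ) (H : ℝ)
    (hα : ∀ r, 1 ≤ α r ∧ α r ≤ q)
    (hj : ∀ r ∈ Finset.Icc 2 (q * K + t - 1), c r ≠ 0 →
      -(S' : ℤ) ≤ (r : ℤ) - α r * K ∧ (r : ℤ) - α r * K ≤ S')
    (h0 : |(c0 : ℝ)| ≤ H) (hc : ∀ r ∈ Finset.Icc 2 (q * K + t - 1), |(c r : ℝ)| ≤ H) (N : ℕ) :
    |xx q K t α c0 c N| ≤ (H * ((q * K + t : ℕ) + 1)) * (N : ℝ) ^ (2 * S' + 2) := by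
  have hH : 0 ≤ H := le_trans (abs_nonneg _) h0
  rcases Nat.eq_zero_or_pos N with hN | hN
  · subst hN
    rw [xx_zero, abs_zero]
    positivity
  have hN1 : (1 : ℝ) ≤ (N : ℝ) := by exact_mod_cast hN
  have h1 : ∀ r ∈ Finset.Icc 2 (q * K + t - 1),
      |(c r : ℝ) * ∑ p ∈ F q (α r) N, g ((r : ℤ) - α r * K) t p| ≤ H * (N : ℝ) ^ (2 * S' + 2) := by
    intro r hr
    by_cases hcr : c r = 0
    · rw [hcr]; simp; positivity
    obtain ⟨j1, j2⟩ := hj r hr hcr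
    rw [abs_mul]
    apply mul_le_mul (hc r hr) _ (abs_nonneg _) hH
    calc |∑ p ∈ F q (α r) N, g ((r : ℤ) - α r * K) t p| ≤ ∑ p ∈ F q (α r) N, |g ((r : ℤ) - α r * K) t p| :=
          Finset.abs_sum_le_sum_abs _ _
      _ ≤ ∑ p ∈ F q (α r) N, (N : ℝ) ^ (2 * S') := by
          apply Finset.sum_le_sum
          intro p hp
          exact g_bound _ t S' N j1 j2 p (F_le (hα r).1 ((mem_F (hα r).1 p).1 hp))
      _ = ((F q (α r) N).card : ℝ) * (N : ℝ) ^ (2 * S') := by rw [Finset.sum_const, nsmul_eq_mul]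
      _ ≤ ((N : ℝ) ^ 2) * (N : ℝ) ^ (2 * S') := by
          apply mul_le_mul_of_nonneg_right _ (by positivity)
          exact_mod_cast card_F q (α r) N
      _ = _ := by rw [← pow_add]; congr 1; ring
  have h2 : |(c0 : ℝ) * ∑ n ∈ F0 q N, ((n + 1 : ℕ) : ℝ) ^ (-(t : ℤ))| ≤ H * (N : ℝ) ^ (2 * S' + 2) := by
    rw [abs_mul]
    apply mul_le_mul h0 _ (abs_nonneg _) hH
    calc |∑ n ∈ F0 q N, ((n + 1 : ℕ) : ℝ) ^ (-(t : ℤ))| ≤ ∑ n ∈ F0 q N, |((n + 1 : ℕ) : ℝ) ^ (-(t : ℤ))| :=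
          Finset.abs_sum_le_sum_abs _ _
      _ ≤ ∑ n ∈ F0 q N, (1 : ℝ) := by
          apply Finset.sum_le_sum
          intro n hn
          rw [abs_of_nonneg (by positivity), zpow_neg, zpow_natCast]
          apply inv_le_one_of_one_le₀
          apply one_le_pow₀
          push_cast; linarith [(Nat.cast_nonneg n : (0:ℝ) ≤ n)]
      _ = ((F0 q N).card : ℝ) := by rw [Finset.sum_const, nsmul_eq_mul, mul_one]
      _ ≤ (N : ℝ) ^ 1 := by rw [pow_one]; exact_mod_cast card_F0 q N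
      _ ≤ (N : ℝ) ^ (2 * S' + 2) := pow_le_pow_right₀ hN1 (by omega)
  unfold xx
  calc _ ≤ |∑ r ∈ Finset.Icc 2 (q * K + t - 1), (c r : ℝ) * ∑ p ∈ F q (α r) N, g ((r : ℤ) - α r * K) t p| +
        |(c0 : ℝ) * ∑ n ∈ F0 q N, ((n + 1 : ℕ) : ℝ) ^ (-(t : ℤ))| := abs_sub _ _
    _ ≤ ∑ r ∈ Finset.Icc 2 (q * K + t - 1), H * (N : ℝ) ^ (2 * S' + 2) + H * (N : ℝ) ^ (2 * S' + 2) := by
        apply add_le_add _ h2
        exact le_trans (Finset.abs_sum_le_sum_abs _ _) (Finset.sum_le_sum h1)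
    _ = ((Finset.Icc 2 (q * K + t - 1)).card : ℝ) * (H * (N : ℝ) ^ (2 * S' + 2)) + H * (N : ℝ) ^ (2 * S' + 2) := by
        rw [Finset.sum_const, nsmul_eq_mul]
    _ ≤ ((q * K + t : ℕ) : ℝ) * (H * (N : ℝ) ^ (2 * S' + 2)) + H * (N : ℝ) ^ (2 * S' + 2) := by
        have : ((Finset.Icc 2 (q * K + t - 1)).card : ℝ) ≤ ((q * K + t : ℕ) : ℝ) := by
          rw [Nat.card_Icc]
          have : q * K + t - 1 + 1 - 2 ≤ q * K + t := by omega
          exact_mod_cast this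
        have h3 := mul_le_mul_of_nonneg_right this (by positivity : 0 ≤ H * (N : ℝ) ^ (2 * S' + 2))
        linarith
    _ = _ := by ring

lemma g_int (j : ℤ) (t S' q N L : ℕ) (ht : t < q) (hj1 : -(S' : ℤ) ≤ j) (hj2 : j ≤ S') (p : ℕ × ℕ)
    (hm : (p.1 + p.2 + 2) ∣ N) (hn : (p.2 + 1) ∣ N * L) :
    ∃ z : ℤ, ((N : ℝ) ^ S' * ((N * L : ℕ) : ℝ) ^ (S' + q)) * g j t p = z := by
  obtain ⟨z1, hz1⟩ := int_of_dvd (p.1 + p.2 + 2) N S' (-j) hm (by omega) (by omega)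
  obtain ⟨z2, hz2⟩ := int_of_dvd (p.2 + 1) (N * L) (S' + q) (j - t) hn (by omega) (by push_cast; omega)
  refine ⟨z1 * z2, ?_⟩
  unfold g
  push_cast at hz1 hz2 ⊢
  rw [← hz1, ← hz2]
  ring

lemma xx_den (q K t S' X M : ℕ) (α : ℕ → ℕ) (c0 : ℤ) (c : ℕ → ℤ) (hq : 1 ≤ q) (ht : t < q)
    (hα : ∀ r, 1 ≤ α r ∧ α r ≤ q)
    (hj : ∀ r ∈ Finset.Icc 2 (q * K + t - 1), c r ≠ 0 →
      -(S' : ℤ) ≤ (r : ℤ) - α r * K ∧ (r : ℤ) - α r * K ≤ S')
    (hM : ∀ m : ℕ, m ^ q ≤ X → m ≤ M) (N : ℕ) (hN : N ≤ X) (hne : xx q K t α c0 c N ≠ 0) :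
    1 ≤ (((X * Nat.lcmUpto M : ℕ) : ℝ) ^ (2 * S' + q)) * |xx q K t α c0 c N| := by
  classical
  have hN0 : 1 ≤ N := by
    rcases Nat.eq_zero_or_pos N with h | h
    · subst h; exact absurd (xx_zero q K t α c0 c) hne
    · exact h
  set L := Nat.lcmUpto M with hL
  have hL0 : 1 ≤ L := Nat.lcmUpto_pos M
  set D : ℝ := (N : ℝ) ^ S' * ((N * L : ℕ) : ℝ) ^ (S' + q) with hD
  have hD0 : 0 < D := by positivity
  have hlcm : ∀ n : ℕ, 1 ≤ n → n ≤ M → n ∣ L := by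
    intro n h1 h2
    exact Finset.dvd_lcm (f := id) (Finset.mem_Icc.2 ⟨h1, h2⟩)
  have h1 : ∀ r ∈ Finset.Icc 2 (q * K + t - 1), ∃ z : ℤ,
      D * ((c r : ℝ) * ∑ p ∈ F q (α r) N, g ((r : ℤ) - α r * K) t p) = z := by
    intro r hr
    by_cases hcr : c r = 0
    · exact ⟨0, by rw [hcr]; simp⟩
    obtain ⟨j1, j2⟩ := hj r hr hcr
    have h2 : ∀ p ∈ F q (α r) N, ∃ z : ℤ, D * g ((r : ℤ) - α r * K) t p = z := by
      intro p hp
      have hp' := (mem_F (hα r).1 p).1 hp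
      have hmN : (p.1 + p.2 + 2) ∣ N := by
        rw [← hp']
        exact Dvd.dvd.mul_right (dvd_pow_self _ (by have := (hα r).1; omega)) _
      apply g_int _ t S' q N L ht j1 j2 p hmN
      rcases Nat.lt_or_ge (α r) q with h | h
      · apply Dvd.dvd.mul_right
        rw [← hp']
        exact Dvd.dvd.mul_left (dvd_pow_self _ (by omega)) _
      · apply Dvd.dvd.mul_left
        have e : α r = q := le_antisymm (hα r).2 h
        rw [e, Nat.sub_self, pow_zero, mul_one] at hp'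
        have := hM (p.1 + p.2 + 2) (by rw [hp']; exact hN)
        exact hlcm _ (by omega) (by omega)
    choose! z hz using h2
    refine ⟨c r * ∑ p ∈ F q (α r) N, z p, ?_⟩
    push_cast
    rw [mul_left_comm, Finset.mul_sum]
    congr 1
    exact Finset.sum_congr rfl (fun p hp => hz p hp)
  have h3 : ∃ z : ℤ, D * ((c0 : ℝ) * ∑ n ∈ F0 q N, ((n + 1 : ℕ) : ℝ) ^ (-(t : ℤ))) = z := by
    have h2 : ∀ n ∈ F0 q N, ∃ z : ℤ, D * ((n + 1 : ℕ) : ℝ) ^ (-(t : ℤ)) = z := by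
      intro n hn
      have hn' := (mem_F0 hq n).1 hn
      obtain ⟨z, hz⟩ := int_of_dvd (n + 1) (N * L) (S' + q) (-(t : ℤ))
        (Dvd.dvd.mul_right (by rw [← hn']; exact dvd_pow_self _ (by omega)) _) (by omega) (by push_cast; omega)
      refine ⟨(N : ℤ) ^ S' * z, ?_⟩
      push_cast at hz ⊢
      rw [← hz, hD]
      push_cast
      ring
    choose! z hz using h2
    refine ⟨c0 * ∑ n ∈ F0 q N, z n, ?_⟩
    push_cast
    rw [mul_left_comm, Finset.mul_sum]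
    congr 1
    have := Finset.sum_congr rfl (fun n hn => hz n hn)
    push_cast at this
    exact this
  choose! z hz using h1
  obtain ⟨z0, hz0⟩ := h3
  have h4 : D * xx q K t α c0 c N = ((∑ r ∈ Finset.Icc 2 (q * K + t - 1), z r - z0 : ℤ) : ℝ) := by
    unfold xx
    rw [mul_sub, Finset.mul_sum, hz0]
    push_cast
    congr 1
    exact Finset.sum_congr rfl (fun r hr => hz r hr)
  have h5 : (∑ r ∈ Finset.Icc 2 (q * K + t - 1), z r - z0 : ℤ) ≠ 0 := by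
    intro h0
    rw [h0, Int.cast_zero] at h4
    rcases mul_eq_zero.1 h4 with h | h
    · exact hD0.ne' h
    · exact hne h
  have h6 : 1 ≤ D * |xx q K t α c0 c N| := by
    rw [← abs_of_pos hD0, ← abs_mul, h4]
    exact_mod_cast Int.one_le_abs h5
  refine le_trans h6 ?_
  apply mul_le_mul_of_nonneg_right _ (abs_nonneg _)
  have hNX : (N : ℝ) ≤ (X : ℝ) := by exact_mod_cast hN
  have hL1 : (1 : ℝ) ≤ (L : ℝ) := by exact_mod_cast hL0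
  have hX0 : (0 : ℝ) ≤ (X : ℝ) := Nat.cast_nonneg _
  have hN00 : (0 : ℝ) ≤ (N : ℝ) := Nat.cast_nonneg _
  calc D ≤ ((X : ℝ) * L) ^ S' * ((X : ℝ) * L) ^ (S' + q) := by
        rw [hD]
        push_cast
        apply mul_le_mul
        · apply pow_le_pow_left₀ hN00
          nlinarith
        · apply pow_le_pow_left₀ (by positivity)
          exact mul_le_mul_of_nonneg_right hNX (by linarith)
        · positivity
        · positivity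
    _ = _ := by
        rw [← pow_add]; push_cast; congr 1; ring

end Pool.Agent.Helper84.RW
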