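import Mathlib
import Pool.Agent.Helper84.RW.Core

set_option autoImplicit false

namespace Pool.Agent.Helper84.RW

open Finset

lemma F_prime_pow {q a a' p : ℕ} (hp : p.Prime) (ha : 1 ≤ a) (haq : a < q) (ha' : a ≤ a')
    (x : ℕ × ℕ) (hx : x ∈ F q a' (p ^ a)) : a' = a ∧ x = (p - 2, 0) := by
  have h1 := (mem_F (by omega) x).1 hx
  have h2 : (x.1 + x.2 + 2) ^ a' ∣ p ^ a := by rw [← h1]; exact Dvd.intro _ rfl
  have h3 : (x.1 + x.2 + 2) ∣ p ^ a := dvd_trans (dvd_pow_self _ (by omega)) h2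
  obtain ⟨e, he1, he2⟩ := (Nat.dvd_prime_pow hp).1 h3
  have he0 : 1 ≤ e := by
    rcases Nat.eq_zero_or_pos e with h | h
    · rw [h, pow_zero] at he2; omega
    · exact h
  rw [he2, ← pow_mul] at h2
  have h4 : e * a' ≤ a := (Nat.pow_dvd_pow_iff_le_right hp.one_lt).1 h2
  have h5 : a' ≤ e * a' := Nat.le_mul_of_pos_left _ he0
  have h6 : a' = a := by omega
  have h7 : e = 1 := by
    rw [h6] at h4
    by_contra hc
    have : 2 ≤ e := by omega
    have : 2 * a ≤ e * a := Nat.mul_le_mul_right _ this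
    omega
  refine ⟨h6, ?_⟩
  rw [h7, pow_one] at he2
  rw [he2, h6] at h1
  have h8 : (x.2 + 1) ^ (q - a) = 1 := by
    have hpos : 0 < p ^ a := pow_pos hp.pos a
    exact Nat.eq_of_mul_eq_mul_left hpos (by rw [h1, mul_one])
  have h9 : x.2 = 0 := by
    by_contra hc
    have : 1 < (x.2 + 1) ^ (q - a) := Nat.one_lt_pow (by omega) (by omega)
    omega
  have h10 : x.1 = p - 2 := by omega
  exact Prod.ext h10 h9

lemma mem_F_prime {q a p : ℕ} (hp : p.Prime) (ha : 1 ≤ a) : (p - 2, 0) ∈ F q a (p ^ a) := by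
  rw [mem_F ha]
  have := hp.two_le
  have e : p - 2 + 0 + 2 = p := by omega
  simp only [e]
  simp

lemma F_prime_eq {q a p : ℕ} (hp : p.Prime) (ha : 1 ≤ a) (haq : a < q) :
    F q a (p ^ a) = {(p - 2, 0)} := by
  ext x
  rw [Finset.mem_singleton]
  constructor
  · intro hx; exact (F_prime_pow hp ha haq (le_refl a) x hx).2
  · intro hx; rw [hx]; exact mem_F_prime hp ha

lemma F_prime_empty {q a a' p : ℕ} (hp : p.Prime) (ha : 1 ≤ a) (haq : a < q) (ha' : a < a') :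
    F q a' (p ^ a) = ∅ := by
  rw [Finset.eq_empty_iff_forall_notMem]
  intro x hx
  have := (F_prime_pow hp ha haq ha'.le x hx).1
  omega

lemma F0_prime {q a p : ℕ} (hp : p.Prime) (ha : 1 ≤ a) (haq : a < q) : F0 q (p ^ a) = ∅ := by
  rw [Finset.eq_empty_iff_forall_notMem]
  intro n hn
  have h1 := (mem_F0 (by omega) n).1 hn
  have h3 : (n + 1) ∣ p ^ a := by rw [← h1]; exact dvd_pow_self _ (by omega)
  obtain ⟨e, he1, he2⟩ := (Nat.dvd_prime_pow hp).1 h3
  rw [he2, ← pow_mul] at h1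
  have h2 : e * q = a := Nat.pow_right_injective hp.two_le h1
  rcases Nat.eq_zero_or_pos e with h | h
  · rw [h, zero_mul] at h2; omega
  · have : q ≤ e * q := Nat.le_mul_of_pos_left _ h
    omega

lemma xx_prime (q K t : ℕ) (α : ℕ → ℕ) (c0 : ℤ) (c : ℕ → ℤ) (a p : ℕ) (hp : p.Prime)
    (ha : 1 ≤ a) (haq : a < q)
    (hlow : ∀ r ∈ Finset.Icc 2 (q * K + t - 1), c r ≠ 0 → a ≤ α r) :
    xx q K t α c0 c (p ^ a) =
      ∑ r ∈ (Finset.Icc 2 (q * K + t - 1)).filter (fun r => α r = a ∧ c r ≠ 0),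
        (c r : ℝ) * (p : ℝ) ^ (-((r : ℤ) - a * K)) := by
  unfold xx
  rw [F0_prime hp ha haq, Finset.sum_empty, mul_zero, sub_zero, Finset.sum_filter]
  apply Finset.sum_congr rfl
  intro r hr
  by_cases hc : c r = 0
  · rw [if_neg (by tauto), hc]; simp
  by_cases h : α r = a
  · rw [if_pos ⟨h, hc⟩, h, F_prime_eq hp ha haq, Finset.sum_singleton]
    unfold g
    have := hp.two_le
    have e : p - 2 + 0 + 2 = p := by omega
    simp only [e]
    simp
  · rw [if_neg (by tauto)]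
    have := hlow r hr hc
    rw [F_prime_empty hp ha haq (by omega), Finset.sum_empty, mul_zero]

lemma dvd_top (A : Finset ℕ) (c : ℕ → ℤ) (p r1 : ℕ) (b : ℤ) (hp : p.Prime) (h1 : r1 ∈ A)
    (hmax : ∀ r ∈ A, r ≤ r1)
    (h : ∑ r ∈ A, (c r : ℝ) * (p : ℝ) ^ (-((r : ℤ) - b)) = 0) : (p : ℤ) ∣ c r1 := by
  classical
  have hp0 : (p : ℝ) ≠ 0 := by exact_mod_cast hp.ne_zero
  have h2 : ∑ r ∈ A, (c r : ℝ) * (p : ℝ) ^ (r1 - r) = 0 := by
    have e1 : (∑ r ∈ A, (c r : ℝ) * (p : ℝ) ^ (-((r : ℤ) - b))) * (p : ℝ) ^ ((r1 : ℤ) - b) = 0 := by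
      rw [h, zero_mul]
    rw [Finset.sum_mul] at e1
    rw [← e1]
    apply Finset.sum_congr rfl
    intro r hr
    rw [mul_assoc, ← zpow_add₀ hp0, ← zpow_natCast]
    congr 2
    rw [Nat.cast_sub (hmax r hr)]; ring
  have h3 : ∑ r ∈ A, c r * (p : ℤ) ^ (r1 - r) = 0 := by exact_mod_cast h2
  rw [← Finset.add_sum_erase A _ h1, Nat.sub_self, pow_zero, mul_one] at h3
  have h4 : (p : ℤ) ∣ ∑ r ∈ A.erase r1, c r * (p : ℤ) ^ (r1 - r) := by
    apply Finset.dvd_sum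
    intro r hr
    have a1 := Finset.mem_erase.1 hr
    have a2 := hmax r a1.2
    apply Dvd.dvd.mul_left
    exact dvd_pow_self _ (by omega)
  have h5 : c r1 = - ∑ r ∈ A.erase r1, c r * (p : ℤ) ^ (r1 - r) := by linarith
  rw [h5]
  exact dvd_neg.2 h4

/-- a window is killed -/
lemma kill (A : Finset ℕ) (c : ℕ → ℤ) (H : ℝ) (b : ℤ) (Y : ℕ)
    (hc : ∀ r ∈ A, |(c r : ℝ)| ≤ H) (hcA : ∀ r ∈ A, c r ≠ 0)
    (h : ∀ p : ℕ, p.Prime → p ≤ Y → ∑ r ∈ A, (c r : ℝ) * (p : ℝ) ^ (-((r : ℤ) - b)) = 0)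
    (hθ : Real.log H < Chebyshev.theta Y) : A = ∅ := by
  classical
  by_contra hne
  have hne' : A.Nonempty := Finset.nonempty_iff_ne_empty.2 hne
  set r1 := A.max' hne' with hr1
  have a1 : r1 ∈ A := Finset.max'_mem A hne'
  have h1 : primorial Y ∣ (c r1).natAbs := by
    unfold primorial
    apply Finset.prod_primes_dvd
    · intro p hp
      exact (Finset.mem_filter.1 hp).2.prime
    · intro p hp
      have b1 := Finset.mem_filter.1 hp
      have b2 : p ≤ Y := by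
        have := b1.1
        simp at this
        omega
      exact Int.natCast_dvd.1 (dvd_top A c p r1 b b1.2 a1 (fun r hr => Finset.le_max' A r hr) (h p b1.2 b2))
  have h2 : primorial Y ≤ (c r1).natAbs := Nat.le_of_dvd (Int.natAbs_pos.2 (hcA r1 a1)) h1
  have h3 : (primorial Y : ℝ) ≤ H := by
    have b1 : ((primorial Y : ℕ) : ℝ) ≤ ((c r1).natAbs : ℝ) := by exact_mod_cast h2
    have b2 : (((c r1).natAbs : ℕ) : ℝ) = |(c r1 : ℝ)| := by
      rw [Nat.cast_natAbs]; push_cast; rfl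
    rw [b2] at b1
    exact le_trans b1 (hc r1 a1)
  have h4 : Chebyshev.theta Y ≤ Real.log H := by
    rw [Chebyshev.theta_eq_log_primorial, Nat.floor_natCast]
    exact Real.log_le_log (by exact_mod_cast primorial_pos Y) h3
  linarith

/-- all interior windows are killed -/
lemma kill_all (q K t : ℕ) (α : ℕ → ℕ) (c0 : ℤ) (c : ℕ → ℤ) (H : ℝ) (X Y : ℕ)
    (hα : ∀ r, 1 ≤ α r ∧ α r ≤ q)
    (hc : ∀ r ∈ Finset.Icc 2 (q * K + t - 1), |(c r : ℝ)| ≤ H)
    (hX : ∀ N ≤ X, xx q K t α c0 c N = 0) (hY : Y ^ (q - 1) ≤ X) (hY1 : 1 ≤ Y)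
    (hθ : Real.log H < Chebyshev.theta Y) :
    ∀ a < q, ∀ r ∈ Finset.Icc 2 (q * K + t - 1), α r = a → c r = 0 := by
  intro a
  induction a using Nat.strong_induction_on with
  | _ a ih =>
    intro haq r hr hra
    by_contra hcr
    have ha : 1 ≤ a := by rw [← hra]; exact (hα r).1
    have hlow : ∀ r ∈ Finset.Icc 2 (q * K + t - 1), c r ≠ 0 → a ≤ α r := by
      intro r hr hcr
      by_contra hlt
      exact hcr (ih (α r) (by omega) (by omega) r hr rfl)
    have h1 := kill ((Finset.Icc 2 (q * K + t - 1)).filter (fun r => α r = a ∧ c r ≠ 0)) c H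
      ((a : ℤ) * K) Y (fun r hr => hc r (Finset.mem_filter.1 hr).1)
      (fun r hr => (Finset.mem_filter.1 hr).2.2)
      (by
        intro p hp hpY
        rw [← xx_prime q K t α c0 c a p hp ha haq hlow]
        apply hX
        calc p ^ a ≤ Y ^ a := Nat.pow_le_pow_left hpY a
          _ ≤ Y ^ (q - 1) := Nat.pow_le_pow_right hY1 (by omega)
          _ ≤ X := hY) hθ
    have h2 : r ∈ (Finset.Icc 2 (q * K + t - 1)).filter (fun r => α r = a ∧ c r ≠ 0) :=
      Finset.mem_filter.2 ⟨hr, hra, hcr⟩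
    rw [h1] at h2
    exact absurd h2 (Finset.notMem_empty r)

end Pool.Agent.Helper84.RW
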