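import Mathlib
import Pool.Agent.Helper84.RW.Kill
import Pool.Agent.Helper46.HB.C
import Pool.Agent.Helper43.OD.Multi3

set_option autoImplicit false

namespace Pool.Agent.Helper84.RW

open Finset

/-- the end window: reduction to the height bound of Helper43 -/
lemma end_window (Ch : ℝ) (k S : ℕ) (c0 : ℤ) (c : ℕ → ℤ) (H : ℝ) (hS : 1 ≤ S) (hk : S + 2 ≤ k)
    (hb : ∀ (k S : ℕ) (c0 : ℤ) (c : ℕ → ℤ) (H : ℝ),
    1 ≤ S → S + 2 ≤ k → (c0 ≠ 0 ∨ ∃ s ∈ Finset.Icc 1 S, c s ≠ 0) →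
    |(c0 : ℝ)| ≤ H → (∀ s ∈ Finset.Icc 1 S, |(c s : ℝ)| ≤ H) →
    ∑ s ∈ Finset.Icc 1 S, (c s : ℝ) * ∑' p : ℕ × ℕ,
        (1 : ℝ) / ((((p.1 + p.2 + 2 : ℕ) : ℝ) ^ (k - s)) * (((p.2 + 1 : ℕ) : ℝ) ^ s)) =
      c0 * ∑' n : ℕ, (1 : ℝ) / ((n + 1 : ℕ) : ℝ) ^ k →
    (k : ℝ) ≤ Ch * S * Real.log (2 * H))
    (hne : c0 ≠ 0 ∨ ∃ r ∈ Finset.Icc 2 (k - 1), c r ≠ 0)
    (h0 : |(c0 : ℝ)| ≤ H) (hc : ∀ r ∈ Finset.Icc 2 (k - 1), |(c r : ℝ)| ≤ H)
    (hend : ∀ r ∈ Finset.Icc 2 (k - 1), c r ≠ 0 → k ≤ r + S)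
    (hrel : ∑ r ∈ Finset.Icc 2 (k - 1), (c r : ℝ) * ∑' p : ℕ × ℕ,
        (1 : ℝ) / ((((p.1 + p.2 + 2 : ℕ) : ℝ) ^ r) * (((p.2 + 1 : ℕ) : ℝ) ^ (k - r))) =
      c0 * ∑' n : ℕ, (1 : ℝ) / ((n + 1 : ℕ) : ℝ) ^ k) :
    (k : ℝ) ≤ Ch * S * Real.log (2 * H) := by
  apply hb k S c0 (fun s => c (k - s)) H hS hk
  · rcases hne with h | ⟨r, hr, h⟩
    · exact Or.inl h
    · right
      have a1 := Finset.mem_Icc.1 hr
      have a2 := hend r hr h
      refine ⟨k - r, Finset.mem_Icc.2 ⟨by omega, by omega⟩, ?_⟩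
      have : k - (k - r) = r := by omega
      simp only [this]; exact h
  · exact h0
  · intro s hs
    have a1 := Finset.mem_Icc.1 hs
    exact hc (k - s) (Finset.mem_Icc.2 ⟨by omega, by omega⟩)
  · rw [← hrel]
    have h1 : ∑ r ∈ Finset.Icc (k - S) (k - 1), (c r : ℝ) * ∑' p : ℕ × ℕ,
        (1 : ℝ) / ((((p.1 + p.2 + 2 : ℕ) : ℝ) ^ r) * (((p.2 + 1 : ℕ) : ℝ) ^ (k - r))) =
        ∑ r ∈ Finset.Icc 2 (k - 1), (c r : ℝ) * ∑' p : ℕ × ℕ,
        (1 : ℝ) / ((((p.1 + p.2 + 2 : ℕ) : ℝ) ^ r) * (((p.2 + 1 : ℕ) : ℝ) ^ (k - r))) := by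
      apply Finset.sum_subset
      · intro r hr
        have := Finset.mem_Icc.1 hr
        exact Finset.mem_Icc.2 ⟨by omega, by omega⟩
      · intro r hr hr2
        have a1 := Finset.mem_Icc.1 hr
        by_cases h : c r = 0
        · rw [h]; simp
        · have a2 := hend r hr h
          exact absurd (Finset.mem_Icc.2 ⟨by omega, by omega⟩) hr2
    rw [← h1]
    refine Finset.sum_nbij' (fun s => k - s) (fun r => k - r) ?_ ?_ ?_ ?_ ?_
    · intro s hs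
      have := Finset.mem_Icc.1 hs
      exact Finset.mem_Icc.2 ⟨by omega, by omega⟩
    · intro r hr
      have := Finset.mem_Icc.1 hr
      exact Finset.mem_Icc.2 ⟨by omega, by omega⟩
    · intro s hs
      have := Finset.mem_Icc.1 hs
      show k - (k - s) = s
      omega
    · intro r hr
      have := Finset.mem_Icc.1 hr
      show k - (k - r) = r
      omega
    · intro s hs
      have := Finset.mem_Icc.1 hs
      have e : k - (k - s) = s := by omega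
      simp only [e]

/-- the elementary inequality -/
lemma final_ineq (q S K k Y : ℕ) (l C2 : ℝ) (hq : 1 ≤ q) (hS : 1 ≤ S) (hY1 : 1 ≤ Y) (hC2 : 1 ≤ C2)
    (hl : 0.69 ≤ l) (hY : (Y : ℝ) ≤ C2 * l) (hk : k + 1 ≤ q * (K + 1))
    (hK : (K : ℝ) ≤ ((Y : ℝ) ^ (q - 1) + 1) * ((l + Real.log ((k : ℝ) + 1) +
      (2 * (S + q) + q) * ((q - 1 : ℕ) * Real.log Y + 6 * Y)) +
      (2 * (S + q) + 4) * Real.log ((Y : ℝ) ^ (q - 1) + 1))) :
    (k : ℝ) ≤ (q * (2 + 3 * C2 ^ q * (1 + 56 * q ^ 2))) * S * (2 * l) ^ q := by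
  have hYr : (1 : ℝ) ≤ (Y : ℝ) := by exact_mod_cast hY1
  have hqr : (1 : ℝ) ≤ (q : ℝ) := by exact_mod_cast hq
  have hSr : (1 : ℝ) ≤ (S : ℝ) := by exact_mod_cast hS
  have hlogY0 : 0 ≤ Real.log Y := Real.log_nonneg hYr
  have hlogY : Real.log Y ≤ Y := by
    have := Real.log_le_sub_one_of_pos (x := (Y : ℝ)) (by linarith); linarith
  set P : ℝ := (Y : ℝ) ^ (q - 1) with hP
  have hP1 : 1 ≤ P := one_le_pow₀ hYr
  have hq1 : ((q - 1 : ℕ) : ℝ) ≤ q := by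
    have : q - 1 ≤ q := Nat.sub_le _ _
    exact_mod_cast this
  have hq10 : (0 : ℝ) ≤ ((q - 1 : ℕ) : ℝ) := Nat.cast_nonneg _
  have hlogP : Real.log P ≤ q * Y := by
    rw [hP, Real.log_pow]
    exact mul_le_mul hq1 hlogY hlogY0 (by linarith)
  have hqY : 1 ≤ (q : ℝ) * Y := by nlinarith
  have hlogP1 : Real.log (P + 1) ≤ 2 * (q * Y) := by
    have e1 : Real.log (P + 1) ≤ Real.log (2 * P) := Real.log_le_log (by linarith) (by linarith)
    rw [Real.log_mul (by norm_num) (by linarith)] at e1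
    have := Real.log_two_lt_d9
    linarith
  -- log (k+1)
  have hkr : (k : ℝ) + 1 ≤ q * ((K : ℝ) + 1) := by exact_mod_cast hk
  have hk0 : (0 : ℝ) ≤ (k : ℝ) := Nat.cast_nonneg _
  set Z : ℝ := 8 * q * P with hZ
  have hZ0 : 0 < Z := by positivity
  have hlogk : Real.log ((k : ℝ) + 1) ≤ ((k : ℝ) + 1) / Z + Real.log Z := by
    have e1 := Real.log_le_sub_one_of_pos (x := ((k : ℝ) + 1) / Z) (by positivity)
    rw [Real.log_div (by positivity) hZ0.ne'] at e1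
    linarith
  have hlogZ : Real.log Z ≤ 5 * (q * Y) := by
    rw [hZ, Real.log_mul (by positivity) (by positivity), Real.log_mul (by norm_num) (by positivity)]
    have e1 : Real.log 8 ≤ 3 := by
      rw [show (8 : ℝ) = 2 ^ 3 by norm_num, Real.log_pow]
      have := Real.log_two_lt_d9
      push_cast; linarith
    have e2 : Real.log (q : ℝ) ≤ q := by
      have := Real.log_le_sub_one_of_pos (x := (q : ℝ)) (by linarith); linarith
    have e3 : (q : ℝ) ≤ q * Y := by nlinarith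
    linarith
  have h1 : (l + Real.log ((k : ℝ) + 1) + (2 * ((S : ℝ) + q) + q) * ((q - 1 : ℕ) * Real.log Y + 6 * Y)) +
      (2 * ((S : ℝ) + q) + 4) * Real.log (P + 1) ≤
      ((k : ℝ) + 1) / Z + (l + 56 * q ^ 2 * S * Y) := by
    have e1 : ((q - 1 : ℕ) : ℝ) * Real.log Y ≤ q * Y := mul_le_mul hq1 hlogY hlogY0 (by linarith)
    have e2 : ((q - 1 : ℕ) : ℝ) * Real.log Y + 6 * Y ≤ 7 * (q * Y) := by nlinarith
    have e3 : 2 * ((S : ℝ) + q) + q ≤ 5 * (q * S) := by nlinarith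
    have e4 : (2 * ((S : ℝ) + q) + q) * ((q - 1 : ℕ) * Real.log Y + 6 * Y) ≤ (5 * (q * S)) * (7 * (q * Y)) := by
      apply mul_le_mul e3 e2 _ (by positivity)
      have : 0 ≤ ((q - 1 : ℕ) : ℝ) * Real.log Y := mul_nonneg hq10 hlogY0
      linarith
    have e5 : 2 * ((S : ℝ) + q) + 4 ≤ 8 * (q * S) := by nlinarith
    have e6 : (2 * ((S : ℝ) + q) + 4) * Real.log (P + 1) ≤ (8 * (q * S)) * (2 * (q * Y)) := by
      apply mul_le_mul e5 hlogP1 (Real.log_nonneg (by linarith)) (by positivity)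
    have e7 : (q : ℝ) * Y ≤ q ^ 2 * S * Y := by
      have : (q : ℝ) * 1 * Y ≤ q ^ 2 * S * Y := by
        apply mul_le_mul_of_nonneg_right _ (by linarith)
        have : (q : ℝ) * 1 ≤ (q * q) * S := by
          apply mul_le_mul _ hSr (by norm_num) (by positivity)
          nlinarith
        linarith
      linarith
    nlinarith
  have h2 : (K : ℝ) ≤ (P + 1) * (((k : ℝ) + 1) / Z + (l + 56 * q ^ 2 * S * Y)) := by
    exact le_trans hK (mul_le_mul_of_nonneg_left h1 (by linarith))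
  have hA0 : 0 ≤ l + 56 * (q : ℝ) ^ 2 * S * Y := by positivity
  have h3 : (P + 1) * (((k : ℝ) + 1) / Z + (l + 56 * q ^ 2 * S * Y)) ≤
      ((K : ℝ) + 1) / 4 + 2 * P * (l + 56 * q ^ 2 * S * Y) := by
    have e1 : (P + 1) * (((k : ℝ) + 1) / Z) ≤ ((K : ℝ) + 1) / 4 := by
      calc (P + 1) * (((k : ℝ) + 1) / Z) ≤ (2 * P) * ((q * ((K : ℝ) + 1)) / Z) := by
            apply mul_le_mul (by linarith) _ (by positivity) (by positivity)
            exact div_le_div_of_nonneg_right hkr hZ0.le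
        _ = ((K : ℝ) + 1) / 4 := by rw [hZ]; field_simp; ring
    have e2 : (P + 1) * (l + 56 * q ^ 2 * S * Y) ≤ 2 * P * (l + 56 * q ^ 2 * S * Y) :=
      mul_le_mul_of_nonneg_right (by linarith) hA0
    rw [mul_add]; linarith
  have h4 : (K : ℝ) ≤ 1 + 3 * (P * (l + 56 * q ^ 2 * S * Y)) := by
    have e1 := le_trans h2 h3
    have e2 : 0 ≤ P * (l + 56 * (q : ℝ) ^ 2 * S * Y) := by positivity
    nlinarith
  have h5 : P * (l + 56 * q ^ 2 * S * Y) ≤ C2 ^ q * (1 + 56 * q ^ 2) * S * l ^ q := by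
    obtain ⟨n, rfl⟩ : ∃ n, q = n + 1 := ⟨q - 1, by omega⟩
    have e1 : P ≤ (C2 * l) ^ n := by
      rw [hP, Nat.add_sub_cancel]
      exact pow_le_pow_left₀ (by linarith) hY n
    have e2 : l + 56 * ((n + 1 : ℕ) : ℝ) ^ 2 * S * Y ≤ C2 * (1 + 56 * ((n + 1 : ℕ) : ℝ) ^ 2) * S * l := by
      have f1 : l ≤ C2 * S * l := by
        have : 1 ≤ C2 * S := by nlinarith
        nlinarith
      have f2 : 56 * ((n + 1 : ℕ) : ℝ) ^ 2 * S * Y ≤ 56 * ((n + 1 : ℕ) : ℝ) ^ 2 * S * (C2 * l) :=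
        mul_le_mul_of_nonneg_left hY (by positivity)
      nlinarith
    calc P * (l + 56 * ((n + 1 : ℕ) : ℝ) ^ 2 * S * Y) ≤ (C2 * l) ^ n * (C2 * (1 + 56 * ((n + 1 : ℕ) : ℝ) ^ 2) * S * l) :=
          mul_le_mul e1 e2 hA0 (by positivity)
      _ = _ := by rw [mul_pow, pow_succ C2, pow_succ l]; ring
  have h6 : l ^ q ≤ (2 * l) ^ q := pow_le_pow_left₀ (by linarith) (by linarith) q
  have h7 : 1 ≤ (2 * l) ^ q := one_le_pow₀ (by linarith)
  set e : ℝ := (2 * l) ^ q with he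
  have h8 : (k : ℝ) ≤ q * (2 + 3 * (C2 ^ q * (1 + 56 * q ^ 2) * S * e)) := by
    have e1 : C2 ^ q * (1 + 56 * (q : ℝ) ^ 2) * S * l ^ q ≤ C2 ^ q * (1 + 56 * (q : ℝ) ^ 2) * S * e :=
      mul_le_mul_of_nonneg_left h6 (by positivity)
    have e2 : (K : ℝ) + 1 ≤ 2 + 3 * (C2 ^ q * (1 + 56 * q ^ 2) * S * e) := by linarith
    have e3 := mul_le_mul_of_nonneg_left e2 (by linarith : (0 : ℝ) ≤ q)
    linarith
  have h9 : 1 ≤ (S : ℝ) * e := by nlinarith
  calc (k : ℝ) ≤ q * (2 + 3 * (C2 ^ q * (1 + 56 * q ^ 2) * S * e)) := h8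
    _ ≤ q * (2 * (S * e) + 3 * (C2 ^ q * (1 + 56 * q ^ 2) * S * e)) := by
        apply mul_le_mul_of_nonneg_left _ (by linarith)
        linarith
    _ = _ := by ring

/-- Integral relations of height at most H supported near finitely many proportions. -/
theorem rational_windows (q : ℕ) (hq : 1 ≤ q) : ∃ C : ℝ, ∀ (k S : ℕ) (c0 : ℤ) (c : ℕ → ℤ) (H : ℝ),
    1 ≤ S → (c0 ≠ 0 ∨ ∃ r ∈ Finset.Icc 2 (k - 1), c r ≠ 0) →
    |(c0 : ℝ)| ≤ H → (∀ r ∈ Finset.Icc 2 (k - 1), |(c r : ℝ)| ≤ H) →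
    (∀ r ∈ Finset.Icc 2 (k - 1), c r ≠ 0 → ∃ a ∈ Finset.Icc 1 q, |(q * r : ℤ) - a * k| ≤ S) →
    ∑ r ∈ Finset.Icc 2 (k - 1), (c r : ℝ) * ∑' p : ℕ × ℕ,
        (1 : ℝ) / ((((p.1 + p.2 + 2 : ℕ) : ℝ) ^ r) * (((p.2 + 1 : ℕ) : ℝ) ^ (k - r))) =
      c0 * ∑' n : ℕ, (1 : ℝ) / ((n + 1 : ℕ) : ℝ) ^ k →
    (k : ℝ) ≤ C * S * Real.log (2 * H) ^ q := by
  obtain ⟨C1, hC1, hC1'⟩ := Pool.Agent.Helper43.OD.cheb
  obtain ⟨Ch, hb⟩ := Pool.Agent.Helper43.OD.height_bound_linear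
  set C2 : ℝ := 2 * C1 + 2 with hC2
  set C3 : ℝ := q * (2 + 3 * C2 ^ q * (1 + 56 * q ^ 2)) with hC3
  have hqr : (1 : ℝ) ≤ (q : ℝ) := by exact_mod_cast hq
  have hC21 : 1 ≤ C2 := by rw [hC2]; linarith
  have hC30 : 0 ≤ C3 := by rw [hC3]; positivity
  refine ⟨(C3 + |Ch| + q * (2 * q + 9)) * 2 ^ q, ?_⟩
  intro k S c0 c H hS hne h0 hc hwin hrel
  have hH1 : 1 ≤ H := by
    rcases hne with h | ⟨s, hs, h⟩
    · have h2 : (1 : ℝ) ≤ |(c0 : ℝ)| := by exact_mod_cast Int.one_le_abs h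
      linarith
    · have h2 : (1 : ℝ) ≤ |(c s : ℝ)| := by exact_mod_cast Int.one_le_abs h
      linarith [hc s hs]
  have hSr : (1 : ℝ) ≤ (S : ℝ) := by exact_mod_cast hS
  have hl2' : (0.69 : ℝ) ≤ Real.log 2 := by have := Real.log_two_gt_d9; linarith
  have hlH : 0 ≤ Real.log H := Real.log_nonneg hH1
  have hell : Real.log (2 * H) = Real.log 2 + Real.log H := Real.log_mul (by norm_num) (by linarith)
  set l : ℝ := Real.log (2 * H) with hl
  have hl0 : (0.69 : ℝ) ≤ l := by linarith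
  have he1 : 1 ≤ (2 * l) ^ q := one_le_pow₀ (by linarith)
  rw [show (C3 + |Ch| + q * (2 * q + 9)) * 2 ^ q * S * l ^ q =
    (C3 + |Ch| + q * (2 * q + 9)) * S * (2 * l) ^ q by rw [mul_pow]; ring]
  set e : ℝ := (2 * l) ^ q with he
  have hSe : 1 ≤ (S : ℝ) * e := by nlinarith
  have hCh0 : 0 ≤ |Ch| := abs_nonneg _
  have hq29 : 0 ≤ (q : ℝ) * (2 * q + 9) := by positivity
  -- it is enough to bound k by one of three terms
  have red3 : (k : ℝ) ≤ C3 * S * e → (k : ℝ) ≤ (C3 + |Ch| + q * (2 * q + 9)) * S * e := by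
    intro h
    have e1 : 0 ≤ (|Ch| + q * (2 * q + 9)) * (S * e) := by positivity
    nlinarith
  have redh : (k : ℝ) ≤ |Ch| * S * e → (k : ℝ) ≤ (C3 + |Ch| + q * (2 * q + 9)) * S * e := by
    intro h
    have e1 : 0 ≤ (C3 + q * (2 * q + 9)) * (S * e) := by positivity
    nlinarith
  have redt : (k : ℝ) ≤ q * (2 * q + 9) * S → (k : ℝ) ≤ (C3 + |Ch| + q * (2 * q + 9)) * S * e := by
    intro h
    have e1 : 0 ≤ (C3 + |Ch|) * (S * e) := by positivity
    have e2 : q * (2 * q + 9) * S * 1 ≤ q * (2 * q + 9) * S * e :=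
      mul_le_mul_of_nonneg_left he1 (by positivity)
    nlinarith
  by_cases hkS : S + 2 ≤ k
  swap
  · apply redt
    have e1 : (k : ℝ) ≤ S + 1 := by
      have : k ≤ S + 1 := by omega
      exact_mod_cast this
    nlinarith
  have hk3 : 3 ≤ k := by omega
  -- the indices of the windows
  classical
  have hex : ∀ r, ∃ a, (1 ≤ a ∧ a ≤ q) ∧ (r ∈ Finset.Icc 2 (k - 1) → c r ≠ 0 → |(q * r : ℤ) - a * k| ≤ S) := by
    intro r
    by_cases h : r ∈ Finset.Icc 2 (k - 1) ∧ c r ≠ 0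
    · obtain ⟨a, ha, ha2⟩ := hwin r h.1 h.2
      exact ⟨a, Finset.mem_Icc.1 ha, fun _ _ => ha2⟩
    · exact ⟨1, ⟨le_refl 1, hq⟩, fun h1 h2 => absurd ⟨h1, h2⟩ h⟩
  choose α hα hαw using hex
  obtain ⟨K, t, ht, hkKt⟩ : ∃ K t, t < q ∧ k = q * K + t :=
    ⟨k / q, k % q, Nat.mod_lt _ (by omega), (Nat.div_add_mod k q).symm⟩
  subst hkKt
  have hj : ∀ r ∈ Finset.Icc 2 (q * K + t - 1), c r ≠ 0 →
      -((S + q : ℕ) : ℤ) ≤ (r : ℤ) - α r * K ∧ (r : ℤ) - α r * K ≤ ((S + q : ℕ) : ℤ) := by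
    intro r hr hcr
    have a1 := abs_le.1 (hαw r hr hcr)
    have a2 := hα r
    push_cast at a1 ⊢
    have b1 : ((q : ℤ)) * ((r : ℤ) - α r * K) = (q * r - α r * (q * K + t)) + α r * t := by ring
    have b2 : (0 : ℤ) ≤ (α r : ℤ) * t := by positivity
    have b3 : (α r : ℤ) * t ≤ q * q := by
      apply mul_le_mul
      · exact_mod_cast a2.2
      · exact_mod_cast ht.le
      · positivity
      · positivity
    have b4 : (1 : ℤ) ≤ q := by exact_mod_cast hq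
    have b5 : (1 : ℤ) ≤ S := by exact_mod_cast hS
    set j : ℤ := (r : ℤ) - α r * K with hjd
    constructor
    · by_contra hcon
      have : j ≤ -(S + q) - 1 := by omega
      have h5 : (q : ℤ) * j ≤ q * (-(S + q) - 1) := mul_le_mul_of_nonneg_left this (by omega)
      nlinarith
    · by_contra hcon
      have : (S + q) + 1 ≤ j := by omega
      have h5 : (q : ℤ) * ((S + q) + 1) ≤ q * j := mul_le_mul_of_nonneg_left this (by omega)
      nlinarith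
  -- choice of Y
  set Y : ℕ := ⌊C1 * (Real.log H + 1)⌋₊ + 1 with hYd
  have hY1 : 1 ≤ Y := by omega
  have hYgt : C1 * (Real.log H + 1) < Y := by
    rw [hYd]; push_cast; exact Nat.lt_floor_add_one _
  have hYle : (Y : ℝ) ≤ C2 * l := by
    have a1 : ((⌊C1 * (Real.log H + 1)⌋₊ : ℕ) : ℝ) ≤ C1 * (Real.log H + 1) := Nat.floor_le (by positivity)
    have a2 : Real.log H + 1 ≤ 2 * l := by linarith
    have a3 : C1 * (Real.log H + 1) ≤ C1 * (2 * l) := mul_le_mul_of_nonneg_left a2 (by linarith)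
    rw [hYd, hC2]; push_cast
    nlinarith
  have hθ : Real.log H < Chebyshev.theta Y := by
    by_contra hcon
    push Not at hcon
    have a1 := hC1' Y
    have a2 : C1 * (Chebyshev.theta Y + 1) ≤ C1 * (Real.log H + 1) :=
      mul_le_mul_of_nonneg_left (by linarith) (by linarith)
    linarith
  by_cases hEK : (2 * (S + q) + 2) + 2 ≤ K
  swap
  · apply redt
    have a1 : K ≤ 2 * (S + q) + 3 := by omega
    have a2 : q * K + t ≤ q * (2 * (S + q) + 4) := by nlinarith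
    have a3 : ((q * K + t : ℕ) : ℝ) ≤ q * (2 * (S + q) + 4) := by exact_mod_cast a2
    refine le_trans a3 ?_
    have a4 : (2 * ((S : ℝ) + q) + 4) ≤ (2 * q + 9) * S := by nlinarith
    calc (q : ℝ) * (2 * (S + q) + 4) ≤ q * ((2 * q + 9) * S) := mul_le_mul_of_nonneg_left a4 (by linarith)
      _ = _ := by ring
  set X : ℕ := Y ^ (q - 1) with hX
  have hX1 : 1 ≤ X := Nat.one_le_pow _ _ hY1
  have hYr : (1 : ℝ) ≤ (Y : ℝ) := by exact_mod_cast hY1
  set B : ℝ := H * (((q * K + t : ℕ) : ℝ) + 1) with hB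
  set L : ℕ := Nat.lcmUpto Y with hL
  have hL0 : 1 ≤ L := Nat.lcmUpto_pos Y
  set Δ : ℝ := ((X * L : ℕ) : ℝ) ^ (2 * (S + q) + q) with hΔ
  have hk0 : (0 : ℝ) ≤ ((q * K + t : ℕ) : ℝ) := Nat.cast_nonneg _
  have hB1 : 1 ≤ B := by rw [hB]; nlinarith
  have hΔ1 : 1 ≤ Δ := by
    apply one_le_pow₀
    have : 1 ≤ X * L := Nat.mul_pos hX1 hL0
    exact_mod_cast this
  have hM : ∀ m : ℕ, m ^ q ≤ X → m ≤ Y := by
    intro m hm
    by_contra hcon
    have a1 : Y < m := by omega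
    have a2 : Y ^ q < m ^ q := Nat.pow_lt_pow_left a1 (by omega)
    have a3 : Y ^ (q - 1) ≤ Y ^ q := Nat.pow_le_pow_right hY1 (by omega)
    omega
  have hlogbound : Real.log (2 * B * Δ) = l + Real.log (((q * K + t : ℕ) : ℝ) + 1) +
      (2 * (S + q) + q) * ((q - 1 : ℕ) * Real.log Y + Chebyshev.psi (Y : ℝ)) := by
    have e1 : 2 * B * Δ = (2 * H) * (((q * K + t : ℕ) : ℝ) + 1) * Δ := by rw [hB]; ring
    have hXL : ((X * L : ℕ) : ℝ) = (Y : ℝ) ^ (q - 1) * (L : ℝ) := by rw [hX]; push_cast; ring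
    have hLr : (0 : ℝ) < (L : ℝ) := by exact_mod_cast hL0
    rw [e1, Real.log_mul (by positivity) (by positivity), Real.log_mul (by positivity) (by positivity), ← hl,
      hΔ, Real.log_pow, hXL, Real.log_mul (by positivity) (by positivity), Real.log_pow, hL,
      ← Chebyshev.psi_eq_log_lcmUpto]
    push_cast
    ring
  by_cases hKbig : ((X : ℝ) + 1) * (Real.log (2 * B * Δ) + (((2 * (S + q) + 2 : ℕ) : ℝ) + 2) * Real.log (X + 1)) < K
  swap
  · apply red3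
    push Not at hKbig
    apply final_ineq q S K (q * K + t) Y l C2 hq hS hY1 hC21 hl0 hYle (by nlinarith)
    refine le_trans hKbig ?_
    have hXr : (X : ℝ) = (Y : ℝ) ^ (q - 1) := by rw [hX]; push_cast; ring
    rw [hXr, hlogbound]
    apply mul_le_mul_of_nonneg_left _ (by positivity)
    have h8 : Chebyshev.psi (Y : ℝ) ≤ 6 * (Y : ℝ) := by
      have e1 := Chebyshev.psi_le_const_mul_self (x := (Y : ℝ)) (Nat.cast_nonneg Y)
      have e2 : Real.log 4 ≤ 2 := by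
        have : Real.log 4 = 2 * Real.log 2 := by
          rw [show (4 : ℝ) = 2 ^ 2 by norm_num, Real.log_pow]; norm_num
        rw [this]
        have := Real.log_two_lt_d9
        linarith
      nlinarith
    have h9 : (2 * ((S : ℝ) + q) + q) * ((q - 1 : ℕ) * Real.log Y + Chebyshev.psi (Y : ℝ)) ≤
        (2 * ((S : ℝ) + q) + q) * ((q - 1 : ℕ) * Real.log Y + 6 * Y) :=
      mul_le_mul_of_nonneg_left (by linarith) (by positivity)
    have h10 : (((2 * (S + q) + 2 : ℕ) : ℝ) + 2) = 2 * ((S : ℝ) + q) + 4 := by push_cast; ring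
    rw [h10]
    linarith
  -- all coefficients up to X vanish
  have hvan := vanish (xx q K t α c0 c) K (2 * (S + q) + 2) X B Δ hB1 hΔ1 (xx_zero q K t α c0 c)
    (xx_hasSum q K t α c0 c hq hk3 hα hrel)
    (fun N => xx_bound q K t (S + q) α c0 c H hα hj h0 hc N)
    (fun N hN hne => xx_den q K t (S + q) X Y α c0 c hq ht hα hj hM N hN hne) hEK hKbig
  have hkill := kill_all q K t α c0 c H X Y hα hc hvan (le_refl _) hY1 hθ
  have hend : ∀ r ∈ Finset.Icc 2 (q * K + t - 1), c r ≠ 0 → q * K + t ≤ r + S := by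
    intro r hr hcr
    have a0 : α r = q := by
      by_contra hne
      have a1 := (hα r).2
      exact hcr (hkill (α r) (by omega) r hr rfl)
    have a1 := abs_le.1 (hαw r hr hcr)
    rw [a0] at a1
    have b4 : (1 : ℤ) ≤ q := by exact_mod_cast hq
    have b5 : (0 : ℤ) ≤ S := by positivity
    by_contra hcon
    push Not at hcon
    have h6 : ((r : ℤ) + S) + 1 ≤ ((q * K + t : ℕ) : ℤ) := by exact_mod_cast hcon
    have h7 : (q : ℤ) * (((r : ℤ) + S) + 1) ≤ q * ((q * K + t : ℕ) : ℤ) := mul_le_mul_of_nonneg_left h6 (by omega)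
    nlinarith [a1.1]
  have hfin := end_window Ch (q * K + t) S c0 c H hS hkS
    hb hne h0 hc hend hrel
  apply redh
  rw [← hl] at hfin
  have h11 : l ≤ e := by
    calc l ≤ (2 * l) ^ 1 := by rw [pow_one]; linarith
      _ ≤ _ := pow_le_pow_right₀ (by linarith) hq
  calc _ ≤ Ch * S * l := hfin
    _ ≤ |Ch| * S * l := by
        apply mul_le_mul_of_nonneg_right _ (by linarith)
        exact mul_le_mul_of_nonneg_right (le_abs_self _) (by linarith)
    _ ≤ |Ch| * S * e := mul_le_mul_of_nonneg_left h11 (by positivity)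

/-- All windows around the points u k / v, u = 1, ..., t, where t <= v. -/
theorem windows : ∀ v t : ℕ, 2 ≤ v → 1 ≤ t → t ≤ v → ∃ C : ℝ,
    ∀ (k S : ℕ) (W : Finset ℕ) (c0 : ℤ) (c : ℕ → ℤ) (H : ℝ), 2 ≤ k →
    (∀ r ∈ W, 2 ≤ r ∧ r + 1 ≤ k ∧ ∃ u : ℕ, 1 ≤ u ∧ u ≤ t ∧ |(v : ℤ) * r - u * k| ≤ S) →
    (c0 ≠ 0 ∨ ∃ r ∈ W, c r ≠ 0) → |(c0 : ℝ)| ≤ H → (∀ r ∈ W, |(c r : ℝ)| ≤ H) →
    ∑ r ∈ W, (c r : ℝ) * ∑' p : ℕ × ℕ,
        (1 : ℝ) / ((((p.1 + p.2 + 2 : ℕ) : ℝ) ^ r) * (((p.2 + 1 : ℕ) : ℝ) ^ (k - r))) =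
      c0 * ∑' n : ℕ, (1 : ℝ) / ((n + 1 : ℕ) : ℝ) ^ k →
    (k : ℝ) ≤ C * (S + 1) * Real.log (2 * H) ^ v ∧
    (t < v → (k : ℝ) ≤ C * Real.log (2 * H) ^ t *
      (Real.log (2 * H) + S * Real.log (2 + Real.log (2 * H)))) := by
  intro v t hv ht htv
  classical
  obtain ⟨C1, hC1⟩ := rational_windows v (by omega)
  obtain ⟨C2, hC2⟩ : ∃ C : ℝ, t < v → 
    ∀ (k S : ℕ) (W : Finset ℕ) (c0 : ℤ) (c : ℕ → ℤ) (H : ℝ), 2 ≤ k →
    (∀ r ∈ W, 2 ≤ r ∧ r + 1 ≤ k ∧ ∃ u : ℕ, 1 ≤ u ∧ u ≤ t ∧ |(v : ℤ) * r - u * k| ≤ S) →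
    (c0 ≠ 0 ∨ ∃ r ∈ W, c r ≠ 0) → |(c0 : ℝ)| ≤ H → (∀ r ∈ W, |(c r : ℝ)| ≤ H) →
    ∑ r ∈ W, (c r : ℝ) * ∑' p : ℕ × ℕ,
        (1 : ℝ) / ((((p.1 + p.2 + 2 : ℕ) : ℝ) ^ r) * (((p.2 + 1 : ℕ) : ℝ) ^ (k - r))) =
      c0 * ∑' n : ℕ, (1 : ℝ) / ((n + 1 : ℕ) : ℝ) ^ k →
    (k : ℝ) ≤ C * Real.log (2 * H) ^ t * (Real.log (2 * H) + S * Real.log (2 + Real.log (2 * H))) := by
    by_cases h : t < v
    · obtain ⟨C, hC⟩ := Pool.Agent.Helper43.OD.rational_windows v t ht h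
      exact ⟨C, fun _ => hC⟩
    · exact ⟨0, fun h' => absurd h' h⟩
  refine ⟨max C1 C2, ?_⟩
  intro k S W c0 c H hk hW hne h0 hc hrel
  have hH1 : 1 ≤ H := by
    rcases hne with h | ⟨s, hs, h⟩
    · have h2 : (1 : ℝ) ≤ |(c0 : ℝ)| := by exact_mod_cast Int.one_le_abs h
      linarith
    · have h2 : (1 : ℝ) ≤ |(c s : ℝ)| := by exact_mod_cast Int.one_le_abs h
      linarith [hc s hs]
  have hl2' : (0.69 : ℝ) ≤ Real.log 2 := by have := Real.log_two_gt_d9; linarith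
  have hlH : 0 ≤ Real.log H := Real.log_nonneg hH1
  have hell : Real.log (2 * H) = Real.log 2 + Real.log H := Real.log_mul (by norm_num) (by linarith)
  set l : ℝ := Real.log (2 * H) with hl
  have hl0 : (0.69 : ℝ) ≤ l := by linarith
  have hlog0 : 0 ≤ Real.log (2 + l) := Real.log_nonneg (by linarith)
  constructor
  · -- the relation with coefficients extended by zero
    have hWsub : W ⊆ Finset.Icc 2 (k - 1) := by
      intro r hr
      obtain ⟨a1, a2, -⟩ := hW r hr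
      exact Finset.mem_Icc.2 ⟨a1, by omega⟩
    have h1 := hC1 k (S + 1) c0 (fun r => if r ∈ W then c r else 0) H (by omega)
      (by
        rcases hne with h | ⟨r, hr, h⟩
        · exact Or.inl h
        · exact Or.inr ⟨r, hWsub hr, by rw [if_pos hr]; exact h⟩) h0
      (by
        intro r _
        by_cases hr : r ∈ W
        · simp only [if_pos hr]; exact hc r hr
        · simp only [if_neg hr]; simp; linarith)
      (by
        intro r _ hr2
        by_cases hr : r ∈ W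
        · obtain ⟨-, -, u, u1, u2, u3⟩ := hW r hr
          refine ⟨u, Finset.mem_Icc.2 ⟨u1, by omega⟩, ?_⟩
          push_cast
          exact le_trans u3 (by linarith)
        · rw [if_neg hr] at hr2; exact absurd rfl hr2)
      (by
        rw [← hrel]
        symm
        rw [← Finset.sum_subset hWsub]
        · apply Finset.sum_congr rfl
          intro r hr
          rw [if_pos hr]
        · intro r _ hr
          rw [if_neg hr]; simp)
    rw [← hl] at h1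
    push_cast at h1
    refine le_trans h1 ?_
    apply mul_le_mul_of_nonneg_right _ (by positivity)
    exact mul_le_mul_of_nonneg_right (le_max_left _ _) (by positivity)
  · intro h
    have h1 := hC2 h k S W c0 c H hk hW hne h0 hc hrel
    rw [← hl] at h1
    refine le_trans h1 ?_
    apply mul_le_mul_of_nonneg_right _ (by positivity)
    exact mul_le_mul_of_nonneg_right (le_max_right _ _) (by positivity)

end Pool.Agent.Helper84.RW
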